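import Pool.Agent.Helper65.KH.Goals

/-!
# Project KH (MP_20ee5e_ag), packet TH: a generic shift exists
-/

set_option autoImplicit false

namespace Pool.Agent.Helper33.KH.TH

open Pool.Agent.Helper65.KH

/-- a transcendental number between `0` and `1` -/
lemma exists_tau : ∃ τ : ℝ, 0 < τ ∧ τ < 1 ∧ Transcendental ℚ τ := by
  have h1 : Set.Countable {x : ℝ | IsAlgebraic ℚ x} := Algebraic.countable ℚ ℝ
  have h2 : Dense ({x : ℝ | IsAlgebraic ℚ x}ᶜ) := h1.dense_compl ℝ
  obtain ⟨x, hx, hx'⟩ := h2.exists_between (zero_lt_one (α := ℝ))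
  exact ⟨x, hx'.1, hx'.2, hx⟩

/-- a nonzero vector orthogonal to fewer than `card ι` vectors -/
lemma exists_orth {ι : Type} [Fintype ι] (U : Finset (ι → ℕ)) (hU : U.card < Fintype.card ι) :
    ∃ q : ι → ℚ, q ≠ 0 ∧ ∀ u ∈ U, ∑ i, q i * (u i : ℚ) = 0 := by
  let f : (ι → ℚ) →ₗ[ℚ] (U → ℚ) :=
    { toFun := fun q u => ∑ i, q i * ((u : ι → ℕ) i : ℚ)
      map_add' := fun a b => by
        ext u
        simp [add_mul, Finset.sum_add_distrib]
      map_smul' := fun c a => by
        ext u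
        simp [mul_assoc, Finset.mul_sum] }
  have h1 : Module.finrank ℚ (U → ℚ) < Module.finrank ℚ (ι → ℚ) := by
    rw [Module.finrank_fintype_fun_eq_card, Module.finrank_fintype_fun_eq_card, Fintype.card_coe]
    exact hU
  have h2 : LinearMap.ker f ≠ ⊥ := LinearMap.ker_ne_bot_of_finrank_lt h1
  obtain ⟨q, hq, hq0⟩ := (Submodule.ne_bot_iff _).1 h2
  refine ⟨q, hq0, fun u hu => ?_⟩
  have h3 : f q = 0 := hq
  have h4 := congrFun h3 ⟨u, hu⟩
  exact h4

theorem t : S_TH := by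
  intro ι _ _ V
  obtain ⟨τ, h0, h1, hτ⟩ := exists_tau
  refine ⟨fun i => τ ^ ((Fintype.equivFin ι i : ℕ) + 1), fun i => ⟨pow_pos h0 _,
    pow_lt_one₀ h0.le h1 (Nat.succ_ne_zero _)⟩, ?_⟩
  intro U _ hU p l h
  obtain ⟨q, hq0, hq⟩ := exists_orth U hU
  -- the relation
  have h2 : ∑ i, (q i : ℝ) * ((p i : ℝ) + τ ^ ((Fintype.equivFin ι i : ℕ) + 1)) = 0 := by
    have h3 : ∀ i, (q i : ℝ) * ((p i : ℝ) + τ ^ ((Fintype.equivFin ι i : ℕ) + 1)) =
        ∑ u ∈ U, l u * ((q i : ℝ) * (u i : ℝ)) := by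
      intro i
      rw [h i, Finset.mul_sum]
      exact Finset.sum_congr rfl fun u _ => by ring
    rw [Finset.sum_congr rfl fun i _ => h3 i, Finset.sum_comm]
    refine Finset.sum_eq_zero fun u hu => ?_
    rw [← Finset.mul_sum]
    have h4 : ∑ i, (q i : ℝ) * (u i : ℝ) = 0 := by
      have h5 := congrArg (fun z : ℚ => (z : ℝ)) (hq u hu)
      simpa using h5
    rw [h4, mul_zero]
  -- the polynomial
  set P : Polynomial ℚ := ∑ i, Polynomial.C (q i) *
    Polynomial.X ^ ((Fintype.equivFin ι i : ℕ) + 1) +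
    Polynomial.C (∑ i, q i * (p i : ℚ)) with hP
  have h3 : Polynomial.aeval τ P = 0 := by
    rw [hP, map_add, map_sum]
    simp only [map_mul, Polynomial.aeval_C, map_pow, Polynomial.aeval_X, map_sum]
    rw [← Finset.sum_add_distrib, ← h2]
    refine Finset.sum_congr rfl fun i _ => ?_
    simp
    ring
  have h4 : P = 0 := by
    by_contra hne
    exact hτ ⟨P, hne, h3⟩
  obtain ⟨i₀, hi₀⟩ := Function.ne_iff.1 hq0
  have h5 : P.coeff ((Fintype.equivFin ι i₀ : ℕ) + 1) = q i₀ := by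
    rw [hP, Polynomial.coeff_add, Polynomial.finsetSum_coeff, Polynomial.coeff_C_succ, add_zero,
      Finset.sum_eq_single i₀]
    · simp
    · intro j _ hj
      rw [Polynomial.coeff_C_mul_X_pow, if_neg]
      intro he
      apply hj
      have h6 : (Fintype.equivFin ι i₀ : ℕ) = (Fintype.equivFin ι j : ℕ) := by omega
      exact (Fintype.equivFin ι).injective (Fin.ext h6.symm)
    · intro hn
      exact absurd (Finset.mem_univ i₀) hn
  rw [h4, Polynomial.coeff_zero] at h5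
  exact hi₀ h5.symm

end Pool.Agent.Helper33.KH.TH
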